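import Mathlib
import Pool.Graph.R_pool_sql_team_seeded_2aa45f1a.Q63.BL.Defs

/-!
# Surfaces with `p_g = 0` and automorphisms which fix curves: definitions

`𝒮` is the category of the smooth projective complex surfaces. The functor `T` gives the groups
`F^2 CH_0(S) ⊗ ℚ` (the kernel of the Albanese map on the zero-cycles of degree zero, with rational
coefficients) with push-forward, `Om` the spaces `H^0(S, K)` of holomorphic two-forms and `P` the
spaces `H^0(S, 2 K)` of bicanonical forms, with pull-back. The number `vol S` is the
self-intersection `K^2` of the canonical class of the minimal model `S'` of `S` if `S` is of general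
type, and `0` otherwise. For an automorphism `g` of a surface `S` of general type, `crv S g` is the
intersection number `K R` on the minimal model `S'` (on which `g` acts, too), where `R` is the sum of
the irreducible curves on `S'` all points of which are fixed by `g`; the convention is `crv S g = 0`
if `g = 1` or if `S` is not of general type. By the holomorphic Lefschetz formula an involution `g`
of a surface of general type with `p_g = 0` has exactly `crv S g + 4` isolated fixed points on `S'`.
-/

set_option autoImplicit false

open CategoryTheory Opposite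

universe u v w w'

namespace Pool.Agent.H15.BI

open Pool.Agent.Q63.BL

variable {𝒮 : Type u} [Category.{v} 𝒮]

/-- Known theorems on smooth projective complex surfaces.

* `quotient`: let the finite group `G` act faithfully on `S`, and let `Y` be a resolution of the
  singularities of the quotient `S / G`. Then `p_g(Y) = 0` if `p_g(S) = 0`, and
  `F^2 CH_0(Y) ⊗ ℚ` is the space of invariants of `G` on `F^2 CH_0(S) ⊗ ℚ`. Suppose that `Y` is of
  general type, with the minimal model `Y'`. Let `N` be the push-forward to `S'` of the pull-back of
  the canonical divisor of `Y'` to a suitable blow up of `S'`, and `c = K N`. Then `N` is nef,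
  `N^2 ≥ |G| K_{Y'}^2`, and by the ramification formula `K - N` is the sum of an effective divisor
  and of the curves `C` on `S'` with nontrivial inertia groups `I`, each of them `|I| - 1` times.
  As `K` is nef this gives `c + ∑ crv S g ≤ K^2`, and `|G| K_{Y'}^2 K^2 ≤ c ^ 2` by the Hodge index
  theorem.
* `one`: the convention `crv S 1 = 0`.
* `bigenus`: for a surface of general type with `p_g = 0` one has `q = 0` and `P_2 = K^2 + 1`.
* `trace`: the holomorphic Lefschetz formula for an involution on a surface of general type with
  `p_g = 0`, for the sheaves `O` and `2 K`: there are `K R + 4` isolated fixed points, and the trace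
  on the bicanonical forms is `K R + 1`.
* `bkl`: the theorem of Bloch, Kas and Lieberman: if `S` is not of general type and has no nonzero
  holomorphic two-form then `F^2 CH_0(S) = 0`.
* `bmy`: if `p_g(S) = 0` then `vol S ≤ 9` (Bogomolov, Miyaoka and Yau).
* `fpp`: a surface with `p_g = 0` and `K^2 = 9` has no automorphism of order two (the minimal model is
  a quotient of the ball, so that curves of fixed points are totally geodesic and have negative
  self-intersection, but by the Lefschetz formula the self-intersection would be one). -/
structure IsSurfaceTheory (T : 𝒮 ⥤ ModuleCat.{w} ℚ) (Om P : 𝒮ᵒᵖ ⥤ ModuleCat.{w'} ℂ)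
    (vol : 𝒮 → ℕ) (crv : ∀ S : 𝒮, Aut S → ℕ) : Prop where
  quotient : ∀ {G : Type} [Group G] [Finite G] {S : 𝒮} (a : G →* Aut S), Function.Injective a →
    ∃ Y : 𝒮, (NoForms Om S → NoForms Om Y) ∧
      (NoCycles T Y → ∀ x : T.obj S, (∀ g, push T (a g).hom x = x) → x = 0) ∧
      (0 < vol Y → ∃ c : ℕ, c + ∑ᶠ g : G, crv S (a g) ≤ vol S ∧
        Nat.card G * vol Y * vol S ≤ c ^ 2)
  one : ∀ S, crv S 1 = 0
  bigenus : ∀ S, NoForms Om S → 0 < vol S → Module.finrank ℂ (P.obj (op S)) = vol S + 1
  trace : ∀ S, NoForms Om S → 0 < vol S → ∀ g : Aut S, g ≠ 1 → g * g = 1 →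
    LinearMap.trace ℂ (P.obj (op S)) (pull P g.hom) = (crv S g : ℂ) + 1
  bkl : ∀ S, NoForms Om S → vol S = 0 → NoCycles T S
  bmy : ∀ S, NoForms Om S → vol S ≤ 9
  fpp : ∀ S, NoForms Om S → vol S = 9 → ∀ g : Aut S, g * g = 1 → g = 1

/-- The quotient of a surface with the invariant `x = K^2` by a group of order `n` is not of general
type, if `s` is the sum of the numbers `K R` of the elements of the group. -/
def Good (x n s : ℕ) : Prop := ∀ c : ℕ, c + s ≤ x → c ^ 2 < n * x

/-- The automorphism `g` has order two, and it has at least `K^2 + 2` isolated fixed points on the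
minimal model, where `K^2 ≥ 3`, or `K^2 + 4` isolated fixed points. -/
def ManyPoints (vol : 𝒮 → ℕ) (crv : ∀ S : 𝒮, Aut S → ℕ) (S : 𝒮) (g : Aut S) : Prop :=
  g ≠ 1 ∧ g * g = 1 ∧ (crv S g = vol S ∨ 3 ≤ vol S ∧ vol S ≤ crv S g + 2)

end Pool.Agent.H15.BI
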