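import Pool.Agent.H15.BI.Inv

/-!
# Elementary abelian groups
-/

set_option autoImplicit false

open CategoryTheory Opposite

universe u v w w'

namespace Pool.Agent.H15.BI

open Pool.Agent.Q63.BL

variable {𝒮 : Type u} [Category.{v} 𝒮] {T : 𝒮 ⥤ ModuleCat.{w} ℚ}
  {Om P : 𝒮ᵒᵖ ⥤ ModuleCat.{w'} ℂ} {vol : 𝒮 → ℕ} {crv : ∀ S : 𝒮, Aut S → ℕ}

/-- If all elements different from `1` fix a curve of positive degree, the sum is large. -/
theorem card_le_fixSum {G : Type} [Group G] [Finite G] {S : 𝒮} (a : G →* Aut S)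
    (h : ∀ g : G, g ≠ 1 → 1 ≤ crv S (a g)) : Nat.card G ≤ fixSum crv a + 1 := by
  classical
  cases nonempty_fintype G
  unfold fixSum
  rw [finsum_eq_sum_of_fintype, Nat.card_eq_fintype_card]
  have h1 : ∑ g ∈ Finset.univ.erase (1 : G), 1 ≤ ∑ g ∈ Finset.univ.erase (1 : G), crv S (a g) :=
    Finset.sum_le_sum fun g hg => h g (Finset.ne_of_mem_erase hg)
  rw [Finset.sum_const, smul_eq_mul, mul_one, Finset.card_erase_of_mem (Finset.mem_univ _),
    Finset.card_univ] at h1
  have h2 : ∑ g ∈ Finset.univ.erase (1 : G), crv S (a g) ≤ ∑ g : G, crv S (a g) :=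
    Finset.sum_le_sum_of_subset (Finset.erase_subset _ _)
  omega

/-- Elementary abelian groups whose quotients are of general type. -/
theorem not_good (hT : IsSurfaceTheory T Om P vol crv) {S : 𝒮} (hS : NoForms Om S)
    (hv : 0 < vol S) {G : Type} [Group G] [Finite G] {a : G →* Aut S} (ha : Function.Injective a)
    (h2 : ∀ g : G, g * g = 1) (h4 : 4 ≤ Nat.card G)
    (hG : ¬ Good (vol S) (Nat.card G) (fixSum crv a)) :
    (vol S = 4 ∨ vol S = 8) ∧ Nat.card G ≤ vol S ∧ fixSum crv a = 0 := by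
  have hx := hT.bmy S hS
  have hdvd := card_dvd hT hS hv ha h2
  unfold Good at hG
  push Not at hG
  obtain ⟨c, hc1, hc2⟩ := hG
  have hodd : ¬ 2 ∣ vol S → Nat.card G ≤ fixSum crv a + 1 := by
    intro ho
    refine card_le_fixSum a fun g hg => ?_
    have h5 := parity hT hS hv ha hg (h2 g)
    omega
  have hpow : ∃ n, Nat.card G = 2 ^ n := by
    have hp : IsPGroup 2 G := fun g => ⟨1, by rw [pow_one, pow_two, h2]⟩
    exact IsPGroup.iff_card.1 hp
  have h9 : vol S ≠ 9 := by
    intro h9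
    have h5 : ∀ g : G, g = 1 := by
      intro g
      apply ha
      rw [map_one]
      exact hT.fpp S hS h9 (a g) (by rw [← map_mul, h2, map_one])
    have : Subsingleton G := ⟨fun g h => by rw [h5 g, h5 h]⟩
    have h6 : Nat.card G ≤ 1 := Finite.card_le_one_iff_subsingleton.2 this
    omega
  have h6 : Nat.card G ≠ 6 := by
    obtain ⟨n, hn⟩ := hpow
    rw [hn]
    rcases n with _ | _ | _ | n
    · norm_num
    · norm_num
    · norm_num
    · intro h7
      have h8 : 2 ^ (n + 3) = 8 * 2 ^ n := by ring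
      omega
  generalize vol S = x at *
  generalize fixSum crv a = s at *
  generalize Nat.card G = n at *
  clear hpow
  have hcx : c ≤ x := by omega
  have hsx : s ≤ x := by omega
  have hn9 : n ≤ x := by
    by_contra hcon
    have h10 : c ^ 2 ≤ x * x := by nlinarith
    have h11 : x * x < n * x := Nat.mul_lt_mul_of_pos_right (by omega) hv
    omega
  interval_cases x <;> interval_cases n <;> interval_cases c <;> omega

/-- Elementary abelian groups of order at least eight. -/
theorem elementary (hT : IsSurfaceTheory T Om P vol crv) {S : 𝒮} (hS : NoForms Om S)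
    {G : Type} [CommGroup G] [Finite G] {a : G →* Aut S} (ha : Function.Injective a)
    (h2 : ∀ g : G, g * g = 1) (h8 : 8 ≤ Nat.card G) : NoCycles T S ∨
      ((vol S = 4 ∨ vol S = 8) ∧ Nat.card G ≤ 2 * vol S ∧
        ∃ H : Subgroup G, Nat.card G ≤ 2 * Nat.card H ∧ ∀ h ∈ H, crv S (a h) = 0) := by
  classical
  cases nonempty_fintype G
  rcases Nat.eq_zero_or_pos (vol S) with hv | hv
  · exact Or.inl (hT.bkl S hS hv)
  by_contra hcon
  push Not at hcon
  obtain ⟨hno, hex⟩ := hcon
  apply hno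
  refine criterion hT hS ha fun n σ hn => ?_
  have hone : ∑ g : G, (((if g = 1 then 1 else 0 : ℚ) : ℚ) : ℂ) • σ g ≠ 0 := by
    rw [Finset.sum_eq_single 1]
    · rw [if_pos rfl, map_one, Rat.cast_one, one_smul]
      have : Nonempty (Fin n) := ⟨⟨0, hn⟩⟩
      exact one_ne_zero
    · intro g _ hg
      rw [if_neg hg, Rat.cast_zero, zero_smul]
    · intro h
      exact absurd (Finset.mem_univ _) h
  obtain ⟨χ, -, w, hw0, hw⟩ := exists_char σ _ hone
  have hexp : Monoid.exponent G ≤ 2 :=
    Monoid.exponent_min' 2 two_pos fun g => by rw [pow_two, h2]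
  have hker := card_le_ker χ
  have hker2 : Nat.card G ≤ Nat.card χ.ker * 2 := hker.trans (Nat.mul_le_mul_left _ hexp)
  refine ⟨χ.ker, ?_, w, hw0, fun g hg => ?_⟩
  · by_contra hbad
    obtain ⟨h3, h4, h5⟩ := not_good (a := a.comp χ.ker.subtype) hT hS hv
      (ha.comp χ.ker.subtype_injective) (fun g => Subtype.ext (h2 g.1)) (by omega) hbad
    obtain ⟨g, hg, hg0⟩ := hex h3 (by omega) χ.ker (by omega)
    exact hg0 (fixSum_eq_zero a χ.ker h5 g hg)
  · have h3 : χ g = 1 := hg
    rw [hw, h3, Units.val_one, one_smul]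

end Pool.Agent.H15.BI
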