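import Pool.Agent.H15.BI.Main

/-!
# Involutions with many isolated fixed points, elementary abelian groups
-/

set_option autoImplicit false

open CategoryTheory Opposite

universe u v w w'

namespace Pool.Agent.H15.BI

open Pool.Agent.Q63.BL

variable {𝒮 : Type u} [Category.{v} 𝒮] {T : 𝒮 ⥤ ModuleCat.{w} ℚ}
  {Om P : 𝒮ᵒᵖ ⥤ ModuleCat.{w'} ℂ} {vol : 𝒮 → ℕ} {crv : ∀ S : 𝒮, Aut S → ℕ}

theorem Good.mono {x n s s' : ℕ} (h : Good x n s) (hs : s ≤ s') : Good x n s' :=
  fun c hc => h c (by omega)

/-- The sum for a subgroup. -/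
theorem le_fixSum {G : Type} [Group G] [Finite G] {S : 𝒮} (a : G →* Aut S) (H : Subgroup G)
    {g : G} (hg : g ∈ H) : crv S (a g) ≤ fixSum crv (a.comp H.subtype) := by
  have h1 := single_le_finsum (⟨g, hg⟩ : H) (f := fun h : H => crv S ((a.comp H.subtype) h))
    (Set.toFinite _) (fun _ => Nat.zero_le _)
  exact h1

theorem fixSum_eq_zero {G : Type} [Group G] [Finite G] {S : 𝒮} (a : G →* Aut S) (H : Subgroup G)
    (h0 : fixSum crv (a.comp H.subtype) = 0) (g : G) (hg : g ∈ H) : crv S (a g) = 0 := by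
  have h1 := le_fixSum (crv := crv) a H hg
  omega

theorem card_two {G : Type} [Group G] {g : G} (hg : g ≠ 1) (h2 : g * g = 1) :
    Nat.card (Subgroup.zpowers g) = 2 := by
  rw [Nat.card_zpowers, orderOf_eq_prime_iff]
  exact ⟨by rw [pow_two, h2], hg⟩

theorem sq_eq {G : Type} [Group G] {g : G} (h2 : g * g = 1) (h : G)
    (hh : h ∈ Subgroup.zpowers g) : h = 1 ∨ h = g := by
  obtain ⟨k, rfl⟩ := Subgroup.mem_zpowers_iff.1 hh
  have h3 : g ^ (2 : ℤ) = 1 := by
    rw [zpow_two, h2]
  rcases Int.even_or_odd' k with ⟨m, rfl | rfl⟩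
  · left
    rw [zpow_mul, h3, one_zpow]
  · right
    rw [zpow_add, zpow_mul, h3, one_zpow, one_mul, zpow_one]

theorem fixSum_two (hT : IsSurfaceTheory T Om P vol crv) {G : Type} [Group G] [Finite G] {S : 𝒮}
    (a : G →* Aut S) {g : G} (h2 : g * g = 1) :
    fixSum crv (a.comp (Subgroup.zpowers g).subtype) = crv S (a g) := by
  classical
  unfold fixSum
  by_cases hg : g = 1
  · have h3 : ∀ h : Subgroup.zpowers g, crv S ((a.comp (Subgroup.zpowers g).subtype) h) = 0 := by
      intro h
      have h4 : (h : G) = 1 := by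
        rcases sq_eq h2 h.1 h.2 with h5 | h5
        · exact h5
        · exact h5.trans hg
      change crv S (a (h : G)) = 0
      rw [h4, map_one, hT.one]
    rw [finsum_congr h3, finsum_zero, hg, map_one, hT.one]
  · rw [finsum_eq_single _ (⟨g, Subgroup.mem_zpowers g⟩ : Subgroup.zpowers g)]
    · rfl
    · intro h hh
      have h4 : (h : G) = 1 := by
        rcases sq_eq h2 h.1 h.2 with h5 | h5
        · exact h5
        · exact absurd (Subtype.ext h5) hh
      change crv S (a (h : G)) = 0
      rw [h4, map_one, hT.one]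

/-- The parity of `K R` for an involution. -/
theorem parity (hT : IsSurfaceTheory T Om P vol crv) {S : 𝒮} (hS : NoForms Om S)
    (hv : 0 < vol S) {G : Type} [Group G] [Finite G] {a : G →* Aut S} (ha : Function.Injective a)
    {g : G} (hg : g ≠ 1) (h2 : g * g = 1) : 2 ∣ vol S + crv S (a g) := by
  have h1 := card_dvd (a := a.comp (Subgroup.zpowers g).subtype) hT hS hv
    (ha.comp (Subgroup.zpowers g).subtype_injective) (by
      rintro ⟨h, hh⟩
      apply Subtype.ext
      change h * h = 1
      rcases sq_eq h2 h hh with rfl | rfl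
      · rw [one_mul]
      · exact h2)
  rwa [card_two hg h2, fixSum_two hT a h2] at h1

theorem good_of_manyPoints {S : 𝒮} {g : Aut S} (hv : 0 < vol S)
    (hg : ManyPoints vol crv S g) : Good (vol S) 2 (crv S g) := by
  intro c hc
  rcases hg.2.2 with h | ⟨h, h'⟩
  · have h1 : c = 0 := by omega
    subst h1
    omega
  · have h1 : c ≤ 2 := by omega
    have h2 : c ^ 2 ≤ 2 ^ 2 := Nat.pow_le_pow_left h1 2
    omega

/-- An involution with a quotient which is not of general type acts as `-1`. -/
theorem act_eq_neg (hT : IsSurfaceTheory T Om P vol crv) {S : 𝒮} (hS : NoForms Om S)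
    {G : Type} [Group G] [Finite G] {a : G →* Aut S} (ha : Function.Injective a) {g : G}
    (hg : g ≠ 1) (h2 : g * g = 1) (hG : Good (vol S) 2 (crv S (a g))) (x : T.obj S) :
    act T a g x = -x := by
  have h1 : act T a g x + x = 0 := by
    refine inv_eq_zero hT hS ha (Subgroup.zpowers g) ?_ _ ?_
    · rw [card_two hg h2, fixSum_two hT a h2]
      exact hG
    · intro h hh
      rcases sq_eq h2 h hh with rfl | rfl
      · rw [map_one]
        rfl
      · rw [map_add, ← Module.End.mul_apply, ← map_mul, h2, map_one, add_comm]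
        rfl
  exact eq_neg_of_add_eq_zero_left h1

/-- The group generated by the products of two involutions with many isolated fixed points. -/
def products (vol : 𝒮 → ℕ) (crv : ∀ S : 𝒮, Aut S → ℕ) {G : Type} [Group G] {S : 𝒮}
    (a : G →* Aut S) : Subgroup G :=
  Subgroup.closure {x : G | ∃ g h, ManyPoints vol crv S (a g) ∧ ManyPoints vol crv S (a h) ∧
    x = g * h}

theorem manyPoints_ne {G : Type} [Group G] {S : 𝒮} {a : G →* Aut S} (ha : Function.Injective a)
    {g : G} (hg : ManyPoints vol crv S (a g)) : g ≠ 1 ∧ g * g = 1 := by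
  refine ⟨fun h => hg.1 (by rw [h, map_one]), ha ?_⟩
  rw [map_mul, map_one]
  exact hg.2.1

theorem act_products (hT : IsSurfaceTheory T Om P vol crv) {S : 𝒮} (hS : NoForms Om S)
    (hv : 0 < vol S) {G : Type} [Group G] [Finite G] {a : G →* Aut S} (ha : Function.Injective a)
    {n : G} (hn : n ∈ products vol crv a) (x : T.obj S) : act T a n x = x := by
  unfold products at hn
  induction hn using Subgroup.closure_induction generalizing x with
  | mem y hy =>
    obtain ⟨g, h, hg, hh, rfl⟩ := hy
    have hg1 := manyPoints_ne ha hg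
    have hh1 := manyPoints_ne ha hh
    rw [map_mul, Module.End.mul_apply,
      act_eq_neg hT hS ha hh1.1 hh1.2 (good_of_manyPoints hv hh) x,
      act_eq_neg hT hS ha hg1.1 hg1.2 (good_of_manyPoints hv hg), neg_neg]
  | one =>
    rw [map_one]
    rfl
  | mul y z _ _ hy hz => rw [map_mul, Module.End.mul_apply, hz, hy]
  | inv y _ hy =>
    have h1 := hy (act T a y⁻¹ x)
    rw [← Module.End.mul_apply, ← map_mul, mul_inv_cancel, map_one] at h1
    exact h1.symm

theorem noCycles_products (hT : IsSurfaceTheory T Om P vol crv) {S : 𝒮} (hS : NoForms Om S)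
    {G : Type} [Group G] [Finite G] {a : G →* Aut S} (ha : Function.Injective a)
    (h : vol S < Nat.card (products vol crv a) ∨
      ∃ n ∈ products vol crv a, ManyPoints vol crv S (a n)) : NoCycles T S := by
  rcases Nat.eq_zero_or_pos (vol S) with hv | hv
  · exact hT.bkl S hS hv
  intro x
  rcases h with h | ⟨n, hn, hn2⟩
  · refine inv_eq_zero hT hS ha (products vol crv a) ?_ x fun g hg => act_products hT hS hv ha hg x
    intro c hc
    have h1 : c ≤ vol S := by omega
    calc c ^ 2 ≤ vol S ^ 2 := Nat.pow_le_pow_left h1 2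
      _ = vol S * vol S := pow_two _
      _ < Nat.card (products vol crv a) * vol S := Nat.mul_lt_mul_of_pos_right h hv
  · have h1 := act_products hT hS hv ha hn x
    have hn1 := manyPoints_ne ha hn2
    rw [act_eq_neg hT hS ha hn1.1 hn1.2 (good_of_manyPoints hv hn2) x] at h1
    have h2 : (2 : ℚ) • x = 0 := by
      rw [two_smul]
      nth_rewrite 1 [← h1]
      exact neg_add_cancel x
    exact (smul_eq_zero.1 h2).resolve_left two_ne_zero

theorem card_le_products {G : Type} [Group G] [Finite G] {S : 𝒮} (a : G →* Aut S) :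
    Nat.card {g : G // ManyPoints vol crv S (a g)} ≤ Nat.card (products vol crv a) := by
  rcases isEmpty_or_nonempty {g : G // ManyPoints vol crv S (a g)} with h | ⟨⟨g, hg⟩⟩
  · rw [Nat.card_of_isEmpty]
    exact Nat.zero_le _
  · refine Nat.card_le_card_of_injective
      (fun h : {g : G // ManyPoints vol crv S (a g)} =>
        (⟨g * h.1, Subgroup.subset_closure ⟨g, h.1, hg, h.2, rfl⟩⟩ : products vol crv a)) ?_
    intro h h' hh
    exact Subtype.ext (mul_left_cancel (congrArg Subtype.val hh))

/-- Surfaces with `K² = 3`. -/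
theorem three (hT : IsSurfaceTheory T Om P vol crv) {S : 𝒮} (hS : NoForms Om S)
    (h3 : vol S = 3) {G : Type} [Group G] [Finite G] {a : G →* Aut S} (ha : Function.Injective a)
    (h2 : 2 ≤ Nat.card {g : G // g ≠ 1 ∧ g * g = 1}) : NoCycles T S ∨
      Nat.card {g : G // g ≠ 1 ∧ g * g = 1} = 3 ∧
        ∀ g h : G, g ≠ 1 ∧ g * g = 1 → h ≠ 1 ∧ h * h = 1 → g ≠ h → orderOf (g * h) = 3 := by
  have hv : 0 < vol S := by omega
  have hmany : ∀ g : G, g ≠ 1 ∧ g * g = 1 → ManyPoints vol crv S (a g) := by
    intro g hg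
    refine ⟨fun h => hg.1 (ha (by rw [h, map_one])), by rw [← map_mul, hg.2, map_one], ?_⟩
    have h4 := parity hT hS hv ha hg.1 hg.2
    right
    omega
  have hcard : Nat.card {g : G // g ≠ 1 ∧ g * g = 1} ≤ Nat.card (products vol crv a) := by
    refine le_trans ?_ (card_le_products (vol := vol) (crv := crv) a)
    exact Nat.card_le_card_of_injective (fun g => ⟨g.1, hmany g.1 g.2⟩)
      (fun g h hgh => Subtype.ext (congrArg (fun z => z.1) hgh))
  by_cases hN : vol S < Nat.card (products vol crv a)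
  · exact Or.inl (noCycles_products hT hS ha (Or.inl hN))
  by_cases hI : ∃ n ∈ products vol crv a, ManyPoints vol crv S (a n)
  · exact Or.inl (noCycles_products hT hS ha (Or.inr hI))
  right
  push Not at hN hI
  have hord : ∀ g h : G, g ≠ 1 ∧ g * g = 1 → h ≠ 1 ∧ h * h = 1 → g ≠ h → orderOf (g * h) = 3 := by
    intro g h hg hh hgh
    have hmem : g * h ∈ products vol crv a :=
      Subgroup.subset_closure ⟨g, h, hmany g hg, hmany h hh, rfl⟩
    have h5 : orderOf (g * h) ≤ Nat.card (products vol crv a) := by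
      rw [← Nat.card_zpowers]
      exact Subgroup.card_le_of_le (Subgroup.zpowers_le.2 hmem)
    have h6 : orderOf (g * h) ≠ 1 := by
      intro h7
      rw [orderOf_eq_one_iff] at h7
      apply hgh
      rw [eq_inv_of_mul_eq_one_left h7]
      exact inv_eq_of_mul_eq_one_right hh.2
    have h7 : 0 < orderOf (g * h) := orderOf_pos _
    have h8 : orderOf (g * h) ≠ 2 := by
      intro h9
      refine hI _ hmem (hmany _ ⟨fun h10 => h6 (by rw [h10, orderOf_one]), ?_⟩)
      have h10 := pow_orderOf_eq_one (g * h)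
      rw [h9, pow_two] at h10
      exact h10
    omega
  refine ⟨?_, hord⟩
  obtain ⟨⟨g, hg⟩, ⟨h, hh⟩, hne⟩ : ∃ x y : {g : G // g ≠ 1 ∧ g * g = 1}, x ≠ y := by
    have h4 : 1 < Nat.card {g : G // g ≠ 1 ∧ g * g = 1} := h2
    have := (Finite.one_lt_card_iff_nontrivial).1 h4
    exact exists_pair_ne _
  have hgh : g ≠ h := fun h5 => hne (Subtype.ext h5)
  have h5 := hord g h hg hh hgh
  have h6 : ∀ z : G, z * z = 1 → z⁻¹ = z := fun z hz => inv_eq_of_mul_eq_one_right hz
  have hk : g * h * g ≠ 1 ∧ (g * h * g) * (g * h * g) = 1 := by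
    constructor
    · intro h7
      apply hh.1
      have h8 : h = g⁻¹ * (g * h * g) * g⁻¹ := by group
      rw [h8, h7, mul_one, ← mul_inv_rev, hg.2, inv_one]
    · calc (g * h * g) * (g * h * g) = g * h * (g * g) * h * g := by group
        _ = 1 := by rw [hg.2, mul_one, mul_assoc g h h, hh.2, mul_one, hg.2]
  have h7 : Nat.card {g : G // g ≠ 1 ∧ g * g = 1} ≠ 2 := by
    intro h8
    have h9 : ∀ z : {g : G // g ≠ 1 ∧ g * g = 1}, z = ⟨g, hg⟩ ∨ z = ⟨h, hh⟩ := by
      intro z
      obtain ⟨u, v, huv, huniv⟩ := Nat.card_eq_two_iff.1 h8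
      have hz : z ∈ ({u, v} : Set _) := huniv ▸ Set.mem_univ z
      have h1' : (⟨g, hg⟩ : {g : G // g ≠ 1 ∧ g * g = 1}) ∈ ({u, v} : Set _) :=
        huniv ▸ Set.mem_univ _
      have h2' : (⟨h, hh⟩ : {g : G // g ≠ 1 ∧ g * g = 1}) ∈ ({u, v} : Set _) :=
        huniv ▸ Set.mem_univ _
      simp only [Set.mem_insert_iff, Set.mem_singleton_iff] at hz h1' h2'
      rcases hz with rfl | rfl <;> rcases h1' with h1' | h1' <;> rcases h2' with h2' | h2' <;>
        first
        | exact Or.inl h1'.symm
        | exact Or.inr h2'.symm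
        | exact absurd (h1'.trans h2'.symm) hne
    rcases h9 ⟨g * h * g, hk⟩ with h10 | h10
    · have h11 : g * h * g = g := congrArg Subtype.val h10
      have h12 : g * h = 1 := mul_eq_right.1 h11
      rw [h12, orderOf_one] at h5
      omega
    · have h11 : g * h * g = h := congrArg Subtype.val h10
      have h12 : (g * h) * (g * h) = 1 := by
        calc (g * h) * (g * h) = g * h * g * h := by group
          _ = 1 := by rw [h11, hh.2]
      have h13 : orderOf (g * h) ∣ 2 := orderOf_dvd_of_pow_eq_one (by rw [pow_two, h12])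
      rw [h5] at h13
      omega
  omega

end Pool.Agent.H15.BI
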