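import Mathlib

/-!
# The sum of the traces of a finite group
-/

set_option autoImplicit false

namespace Pool.Agent.H15.BI

open Module

theorem sum_trace {G V : Type*} [Group G] [Fintype G] [AddCommGroup V] [Module ℂ V]
    [FiniteDimensional ℂ V] (ρ : Representation ℂ G V) :
    ∑ g, LinearMap.trace ℂ V (ρ g) = (Nat.card G : ℂ) * (finrank ℂ ρ.invariants : ℂ) := by
  have h0 : (Nat.card G : ℂ) ≠ 0 := by exact_mod_cast Nat.card_pos.ne'
  have : Invertible (Nat.card G : ℂ) := invertibleOfNonzero h0
  have h1 := ρ.card_inv_mul_sum_char_eq_finrank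
  rw [← h1, mul_inv_cancel_left₀ h0]
  rfl

end Pool.Agent.H15.BI
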