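import Pool.Agent.H15.BI.Defs
import Pool.Agent.H15.BI.Rep
import Pool.Graph.R_pool_sql_team_seeded_2aa45f1a.Q63.BL.Main

/-!
# Zero-cycles on surfaces with involutions which fix curves
-/

set_option autoImplicit false

open CategoryTheory Opposite

universe u v w w'

namespace Pool.Agent.H15.BI

open Pool.Agent.Q63.BL

variable {𝒮 : Type u} [Category.{v} 𝒮] {T : 𝒮 ⥤ ModuleCat.{w} ℚ}
  {Om P : 𝒮ᵒᵖ ⥤ ModuleCat.{w'} ℂ} {vol : 𝒮 → ℕ} {crv : ∀ S : 𝒮, Aut S → ℕ}

theorem pull_id (S : 𝒮) : pull P (𝟙 S) = LinearMap.id := by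
  unfold pull
  rw [op_id, P.map_id]
  rfl

theorem pull_comp {S S' S'' : 𝒮} (f : S ⟶ S') (g : S' ⟶ S'') :
    pull P (f ≫ g) = (pull P f).comp (pull P g) := by
  unfold pull
  rw [op_comp, P.map_comp]
  rfl

/-- The action of a group of automorphisms on the bicanonical forms. -/
noncomputable def actP (P : 𝒮ᵒᵖ ⥤ ModuleCat.{w'} ℂ) {G : Type} [Group G] {S : 𝒮}
    (a : G →* Aut S) : Representation ℂ G (P.obj (op S)) where
  toFun g := pull P (a g⁻¹).hom
  map_one' := by
    rw [inv_one, map_one]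
    exact pull_id S
  map_mul' g h := by
    rw [mul_inv_rev, map_mul]
    exact pull_comp (a g⁻¹).hom (a h⁻¹).hom

/-- The sum of the numbers `K R` of the elements of a group. -/
noncomputable def fixSum (crv : ∀ S : 𝒮, Aut S → ℕ) {G : Type} [Group G] {S : 𝒮} (a : G →* Aut S) :
    ℕ := ∑ᶠ g : G, crv S (a g)

theorem card_dvd (hT : IsSurfaceTheory T Om P vol crv) {S : 𝒮} (hS : NoForms Om S)
    (hv : 0 < vol S) {G : Type} [Group G] [Finite G] {a : G →* Aut S} (ha : Function.Injective a)
    (h2 : ∀ g : G, g * g = 1) : Nat.card G ∣ vol S + fixSum crv a := by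
  classical
  cases nonempty_fintype G
  have hfr := hT.bigenus S hS hv
  have : FiniteDimensional ℂ (P.obj (op S)) := Module.finite_of_finrank_pos (by omega)
  have h1 := sum_trace (actP P a)
  have h3 : ∀ g : G, LinearMap.trace ℂ (P.obj (op S)) (actP P a g) =
      ((crv S (a g) : ℂ) + 1) + if g = 1 then (vol S : ℂ) else 0 := by
    intro g
    by_cases hg : g = 1
    · subst hg
      have h4 : actP P a 1 = 1 := map_one _
      have h5 : a 1 = 1 := map_one _
      rw [h4, h5, hT.one, if_pos rfl, LinearMap.trace_one, hfr]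
      push_cast
      ring
    · rw [if_neg hg, add_zero]
      have h4 : a g ≠ 1 := fun h => hg (ha (by rw [h, map_one]))
      have h5 := hT.trace S hS hv (a g) h4 (by rw [← map_mul, h2, map_one])
      rw [← h5]
      change LinearMap.trace ℂ (P.obj (op S)) (pull P (a g⁻¹).hom) = _
      rw [inv_eq_of_mul_eq_one_right (h2 g)]
  simp only [h3, Finset.sum_add_distrib, Finset.sum_ite_eq', Finset.mem_univ, if_true,
    Finset.sum_const, Finset.card_univ] at h1
  rw [← Nat.card_eq_fintype_card] at h1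
  have h6 : (∑ g : G, crv S (a g)) + Nat.card G + vol S =
      Nat.card G * Module.finrank ℂ (actP P a).invariants := by
    have h7 : (((∑ g : G, crv S (a g)) + Nat.card G + vol S : ℕ) : ℂ) =
        ((Nat.card G * Module.finrank ℂ (actP P a).invariants : ℕ) : ℂ) := by
      push_cast
      rw [← h1]
      simp
    exact_mod_cast h7
  have h8 : fixSum crv a = ∑ g : G, crv S (a g) := finsum_eq_sum_of_fintype _
  rw [h8]
  have h9 : Nat.card G ∣ (∑ g : G, crv S (a g)) + Nat.card G + vol S := ⟨_, h6⟩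
  have h10 : (∑ g : G, crv S (a g)) + Nat.card G + vol S =
      (vol S + ∑ g : G, crv S (a g)) + Nat.card G := by ring
  rw [h10] at h9
  exact (Nat.dvd_add_left (dvd_refl _)).1 h9

/-- No nonzero cycle is fixed by a group whose quotient is not of general type. -/
theorem top_eq_zero (hT : IsSurfaceTheory T Om P vol crv) {S : 𝒮} (hS : NoForms Om S)
    {G : Type} [Group G] [Finite G] {a : G →* Aut S} (ha : Function.Injective a)
    (hG : Good (vol S) (Nat.card G) (fixSum crv a)) (x : T.obj S)
    (hx : ∀ g, push T (a g).hom x = x) : x = 0 := by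
  obtain ⟨Y, h1, h2, h3⟩ := hT.quotient a ha
  refine h2 (hT.bkl Y (h1 hS) ?_) x hx
  by_contra hcon
  obtain ⟨c, hc1, hc2⟩ := h3 (Nat.pos_of_ne_zero hcon)
  have h4 := hG c hc1
  have h5 : Nat.card G * vol S ≤ Nat.card G * vol Y * vol S := by
    apply Nat.mul_le_mul_right
    exact Nat.le_mul_of_pos_right _ (Nat.pos_of_ne_zero hcon)
  omega

theorem inv_eq_zero (hT : IsSurfaceTheory T Om P vol crv) {S : 𝒮} (hS : NoForms Om S)
    {G : Type} [Group G] [Finite G] {a : G →* Aut S} (ha : Function.Injective a)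
    (H : Subgroup G) (hH : Good (vol S) (Nat.card H) (fixSum crv (a.comp H.subtype)))
    (x : T.obj S) (hx : ∀ h ∈ H, act T a h x = x) : x = 0 :=
  top_eq_zero (a := a.comp H.subtype) hT hS (ha.comp H.subtype_injective) hH x
    fun g => hx g.1 g.2

/-- The general criterion. -/
theorem criterion (hT : IsSurfaceTheory T Om P vol crv) {S : 𝒮} (hS : NoForms Om S)
    {G : Type} [Group G] [Finite G] {a : G →* Aut S} (ha : Function.Injective a)
    (hdet : ∀ (n : ℕ) (σ : Representation ℂ G (Fin n → ℂ)), 0 < n →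
      ∃ H : Subgroup G, Good (vol S) (Nat.card H) (fixSum crv (a.comp H.subtype)) ∧
        ∃ w : Fin n → ℂ, w ≠ 0 ∧ ∀ h ∈ H, σ h w = w) : NoCycles T S := by
  intro x
  have h1 := act_eq_zero (act T a)
    (fun H => Good (vol S) (Nat.card H) (fixSum crv (a.comp H.subtype)))
    (fun H hH x hx => inv_eq_zero hT hS ha H hH x hx) 1 (by
      intro n σ h
      refine hdet n σ (Nat.pos_of_ne_zero ?_)
      rintro rfl
      exact h (Subsingleton.elim _ _)) x
  rwa [map_one] at h1

end Pool.Agent.H15.BI
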